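import Mathlib
import Pool.Agent.H10.Tiling

set_option autoImplicit false

namespace Pool.Agent.Results.MP_2a41cd_an.Rotund

open Pool.Agent.H10.Tiling in
/-- An infinite-dimensional real normed space with a rotund norm that is tiled by closed balls of
radius one. -/
theorem result : ∃ (X : Type) (_ : NormedAddCommGroup X) (_ : NormedSpace ℝ X),
    ¬ FiniteDimensional ℝ X ∧
    (∀ x y : X, ‖x‖ = 1 → ‖y‖ = 1 → x ≠ y → ‖(1 / 2 : ℝ) • (x + y)‖ < 1) ∧
    ∃ C : Set X, (⋃ a ∈ C, Metric.closedBall a 1) = Set.univ ∧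
      C.Pairwise fun a b =>
        Disjoint (interior (Metric.closedBall a 1)) (interior (Metric.closedBall b 1)) := by
  refine ⟨E, inferInstance, inferInstance, not_fd, fun x y hx hy hxy => ?_,
    (fun g => toX.symm (c g)) '' Act, ?_, ?_⟩
  · have := strict
    have h := norm_combo_lt_of_ne hx.le hy.le hxy one_half_pos one_half_pos (add_halves 1)
    rwa [← smul_add] at h
  · refine Set.eq_univ_of_forall fun v => ?_
    obtain ⟨g, hg, h⟩ := cover (toX v)
    refine Set.mem_biUnion ⟨g, hg, rfl⟩ ?_
    rw [Metric.mem_closedBall, dist_eq_norm, norm_E]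
    exact h
  · rintro _ ⟨g, hg, rfl⟩ _ ⟨g', hg', rfl⟩ hne
    rw [interior_closedBall _ one_ne_zero, interior_closedBall _ one_ne_zero]
    refine Metric.ball_disjoint_ball ?_
    rw [dist_eq_norm, norm_E, one_add_one_eq_two]
    exact sep hg hg' fun h => hne (by rw [h])

end Pool.Agent.Results.MP_2a41cd_an.Rotund
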